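import Pool.Agent.Helper73.DC.St8

set_option autoImplicit false

/-! Project DC (helper73), module G6: derivations are unique. -/

namespace Pool.Agent.Helper16.DC

open Pool.Agent.Helper73.DC
open Finset
open scoped Classical

theorem mG6 : StG6 := by
  intro lf cl rs wt x r m n r' m' n' h
  induction h generalizing r' m' n' with
  | leaf x r hx =>
    intro h2
    cases h2 with
    | leaf _ _ hx2 => exact ⟨by omega, rfl, rfl⟩
    | node _ r1 m1 n1 r2 m2 n2 hz _ _ => omega
  | node x r1 m1 n1 r2 m2 n2 hz _ _ ih1 ih2 =>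
    intro h2
    cases h2 with
    | leaf _ _ hx2 => omega
    | node _ s1 k1 l1 s2 k2 l2 hz2 ha hb =>
      obtain ⟨h1, h2, h3⟩ := ih1 _ _ _ ha
      subst h1
      obtain ⟨h4, h5, h6⟩ := ih2 _ _ _ hb
      exact ⟨h4, by omega, by omega⟩

end Pool.Agent.Helper16.DC
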